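import Pool.Agent.Q66.RX.Stm

/-!
Project RX, unit BMG: a homomorphism to the circle whose real part is nonnegative on `V m` is near one
on `V n`, for `n ≥ m + k`, with `k` depending only on the neighbourhood of one in the circle.
-/

set_option autoImplicit false

open Filter Topology

namespace Pool.Agent.Q278.RX

open Pool.Agent.Q66.RX

/-- The sequence `V` decreases by one step. -/
theorem step_sub {X : Type} [CommGroup X] (V : ℕ → Set X) (h1 : ∀ n, 1 ∈ V n)
    (h2 : ∀ n, ∀ a ∈ V (n + 1), ∀ b ∈ V (n + 1), a * b ∈ V n) (n : ℕ) :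
    V (n + 1) ⊆ V n := by
  intro a ha
  have h := h2 n a ha 1 (h1 (n + 1))
  rwa [mul_one] at h

theorem add_sub' {X : Type} [CommGroup X] (V : ℕ → Set X) (h1 : ∀ n, 1 ∈ V n)
    (h2 : ∀ n, ∀ a ∈ V (n + 1), ∀ b ∈ V (n + 1), a * b ∈ V n) (m j : ℕ) :
    V (m + j) ⊆ V m := by
  induction j with
  | zero => exact fun _ h => h
  | succ j ih => exact fun a ha => ih (step_sub V h1 h2 (m + j) ha)

/-- `v ∈ V (n + j)` gives `v^(2^j) ∈ V n`. -/
theorem pow_mem_V {X : Type} [CommGroup X] (V : ℕ → Set X)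
    (h2 : ∀ n, ∀ a ∈ V (n + 1), ∀ b ∈ V (n + 1), a * b ∈ V n) (j : ℕ) :
    ∀ (n : ℕ) (v : X), v ∈ V (n + j) → v ^ (2 ^ j) ∈ V n := by
  induction j with
  | zero =>
    intro n v hv
    simpa using hv
  | succ j ih =>
    intro n v hv
    have h3 : v ^ (2 ^ j) ∈ V (n + 1) := by
      apply ih (n + 1) v
      have h4 : n + 1 + j = n + (j + 1) := by omega
      rw [h4]
      exact hv
    have h5 := h2 n _ h3 _ h3
    have h6 : v ^ (2 ^ (j + 1)) = v ^ (2 ^ j) * v ^ (2 ^ j) := by
      rw [← pow_add]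
      congr 1
      rw [pow_succ]
      omega
    rw [h6]
    exact h5

theorem t_BMG (hC : S_CIR) : S_BMG := by
  intro X _ V h1 h2 V' hV'
  obtain ⟨k, hk⟩ := hC V' hV'
  refine ⟨k, ?_⟩
  intro m β hβ n hn v hv
  apply hk
  intro j hj
  rw [← map_pow]
  apply hβ
  have h3 : v ∈ V ((n - j) + j) := by
    have h4 : n - j + j = n := by omega
    rw [h4]
    exact hv
  have h5 := pow_mem_V V h2 j (n - j) v h3
  have h6 : n - j = m + (n - j - m) := by omega
  rw [h6] at h5
  exact add_sub' V h1 h2 m (n - j - m) h5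

end Pool.Agent.Q278.RX
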